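import Pool.Agent.H25.CBase

set_option autoImplicit false

namespace Pool.Agent.Results.MP_54ee58_lc.Q1
open Pool.Agent.H11.PT Pool.Agent.H25.CB

/-- intersection of all maximum independent sets -/
def core {V : Type} [Finite V] (G : SimpleGraph V) : Set V := {v | ∀ S, G.IsMaximumIndepSet S → v ∈ S}

/-- `|X| - |N(X)|` -/
noncomputable def df {V : Type} (G : SimpleGraph V) (X : Finset V) : ℤ :=
  (X.card : ℤ) - ({w | ∃ v ∈ X, G.Adj v w} : Set V).ncard

def Crit {V : Type} (G : SimpleGraph V) (I : Finset V) : Prop :=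
  G.IsIndepSet I ∧ ∀ J : Finset V, G.IsIndepSet J → df G J ≤ df G I

/-- intersection of all maximum critical independent sets -/
def nucleus {V : Type} (G : SimpleGraph V) : Set V :=
  {v | ∀ I, (Crit G I ∧ ∀ J, Crit G J → J.card ≤ I.card) → v ∈ I}

def CN (y : ℕ × List (ℕ × ℕ)) : Prop := core (gr y.1 y.2) = nucleus (gr y.1 y.2)

def pt (n v : ℕ) : ℕ := if v < n then 0 else if v < 2 * n then 1 else 2
def ix (n v : ℕ) : ℕ := if v < n then v else v - n

def red (y : ℕ × List (ℕ × ℕ) × ℕ) : ℕ × List (ℕ × ℕ) :=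
  if y.2.2 = 0 then (0, []) else (2 * y.1 + y.2.2,
    (List.range (2 * y.1 + y.2.2) ×ˢ List.range (2 * y.1 + y.2.2)).filter fun p =>
      decide (¬ pt y.1 p.1 = pt y.1 p.2 ∨ (ix y.1 p.1, ix y.1 p.2) ∈ y.2.1))

theorem card_Ico' {N : ℕ} (S : Finset (Fin N)) (a b : ℕ) (h : ∀ v ∈ S, a ≤ v.val ∧ v.val < b) :
    S.card ≤ b - a := by
  rw [← Nat.card_Ico]
  exact Finset.card_le_card_of_injOn Fin.val (fun j hj => by simpa using h j hj)
    fun _ _ _ _ => Fin.ext

theorem card_ge {N : ℕ} (a b : ℕ) (h : b ≤ N) :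
    (Finset.univ.filter fun v : Fin N => a ≤ v.val ∧ v.val < b).card = b - a := by
  rw [← Nat.card_Ico, ← Finset.card_image_of_injective _ Fin.val_injective]
  congr 1
  ext x
  simp only [Finset.mem_image, Finset.mem_filter, Finset.mem_univ, true_and, Finset.mem_Ico]
  exact ⟨fun ⟨v, h1, h2⟩ => h2 ▸ h1, fun h1 => ⟨⟨x, by omega⟩, h1, rfl⟩⟩

theorem sp (n v : ℕ) : (v < n ∧ pt n v = 0 ∧ ix n v = v) ∨
    (n ≤ v ∧ v < 2 * n ∧ pt n v = 1 ∧ ix n v + n = v) ∨
    (2 * n ≤ v ∧ pt n v = 2 ∧ ix n v + n = v) := by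
  unfold pt ix; split_ifs <;> omega

theorem main (n k : ℕ) (E : List (ℕ × ℕ)) (k0 : 0 < k) (kn : k ≤ n)
    (hE : ∀ e ∈ E, e.1 < e.2 ∧ e.2 < n) (G : SimpleGraph (Fin (2 * n + k)))
    (hG : ∀ u v, G.Adj u v ↔ pt n u ≠ pt n v ∨ (ix n u, ix n v) ∈ E ∨ (ix n v, ix n u) ∈ E) :
    IS (n, E, k) ↔ core G = nucleus G := by
  have same : ∀ S : Finset (Fin (2 * n + k)), G.IsIndepSet S → ∀ u ∈ S, ∀ v ∈ S,
      pt n u = pt n v ∧ (ix n u, ix n v) ∉ E := fun S hS u hu v hv => by
    by_cases e : u = v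
    · exact ⟨e ▸ rfl, fun h => by simpa [e] using (hE _ h).1⟩
    · have := mt (hG u v).2 (hS hu hv e)
      exact ⟨by_contra fun h => this (.inl h), fun h => this (.inr (.inl h))⟩
  have neg : ∀ S : Finset (Fin (2 * n + k)), G.IsIndepSet S → S.Nonempty → df G S < 0 := by
    rintro S hS ⟨u, hu⟩
    have h1 : ∀ a b, b ≤ 2 * n + k → (∀ w : ℕ, a ≤ w → w < b → pt n u ≠ pt n w) →
        b - a ≤ ({w | ∃ v ∈ S, G.Adj v w} : Set _).ncard := fun a b hb h => by
      rw [← card_ge a b hb, ← Set.ncard_coe_finset]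
      exact Set.ncard_le_ncard fun w hw => ⟨u, hu, (hG u w).2 (.inl (by
        simp only [Finset.coe_filter, Finset.mem_univ, true_and, Set.mem_ofPred_eq] at hw
        exact h w hw.1 hw.2))⟩
    have h2 : ∀ a b, (∀ w : ℕ, w < 2 * n + k → pt n u = pt n w → a ≤ w ∧ w < b) →
        S.card ≤ b - a := fun a b h => card_Ico' S a b fun v hv => h v v.2 (same S hS u hu v hv).1
    unfold df
    by_cases c1 : u.val < n
    · have := h1 n (2 * n + k) le_rfl fun w _ _ => by have := sp n u; have := sp n w; omega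
      have := h2 0 n fun w _ => by have := sp n u; have := sp n w; omega
      omega
    by_cases c2 : u.val < 2 * n
    · have h3 : ({w : Fin (2 * n + k) | ∃ v ∈ S, G.Adj v w} : Set _).ncard ≥ n + 1 := by
        have : (insert (⟨2 * n, by omega⟩ : Fin (2 * n + k))
            (Finset.univ.filter fun v : Fin (2 * n + k) => 0 ≤ v.val ∧ v.val < n)).card = n + 1 := by
          rw [Finset.card_insert_of_notMem (by simp; omega), card_ge 0 n (by omega)]; rfl
        rw [← this, ← Set.ncard_coe_finset]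
        refine Set.ncard_le_ncard fun w hw => ⟨u, hu, (hG u w).2 (.inl ?_)⟩
        simp only [Finset.coe_insert, Finset.coe_filter, Finset.mem_univ, true_and,
          Set.mem_insert_iff, Set.mem_ofPred_eq, Fin.ext_iff] at hw
        have := sp n u; have := sp n w; omega
      have := h2 n (2 * n) fun w _ => by have := sp n u; have := sp n w; omega
      omega
    · have := h1 0 (2 * n) (by omega) fun w _ _ => by have := sp n u; have := sp n w; omega
      have := h2 (2 * n) (2 * n + k) fun w _ => by have := sp n u; have := sp n w; omega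
      omega
  have nu : nucleus G = ∅ := Set.eq_empty_of_forall_notMem fun v hv => by
    have d0 : df G ∅ = 0 := by simp [df]
    refine absurd (hv ∅ ⟨⟨by simp, fun J hJ => ?_⟩, fun J hJ => ?_⟩) (by simp)
    · rcases J.eq_empty_or_nonempty with rfl | h
      exacts [le_rfl, d0 ▸ (neg J hJ h).le]
    · rcases J.eq_empty_or_nonempty with rfl | h
      · exact le_rfl
      · exact absurd (hJ.2 ∅ (by simp)) (by have := neg J hJ.1 h; omega)
  rw [nu]
  let T : Finset (Fin (2 * n + k)) := Finset.univ.filter fun v => 2 * n ≤ v.val ∧ v.val < 2 * n + k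
  have T1 : T.card = k := (card_ge _ _ le_rfl).trans (by omega)
  have T2 : G.IsIndepSet T := fun u hu v hv _ h => by
    simp only [T, Finset.coe_filter, Finset.mem_univ, true_and, Set.mem_ofPred_eq] at hu hv
    rcases (hG u v).1 h with h | h | h
    · exact h (by unfold pt; split_ifs <;> omega)
    · have := (hE _ h).2; unfold ix at this; split_ifs at this <;> omega
    · have := (hE _ h).2; unfold ix at this; split_ifs at this <;> omega
  have lift : ∀ I : Finset ℕ, (∀ v ∈ I, v < n) → (∀ e ∈ E, ¬ (e.1 ∈ I ∧ e.2 ∈ I)) → ∀ c ≤ 1,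
      ∃ S : Finset (Fin (2 * n + k)), G.IsIndepSet S ∧ S.card = I.card ∧ ∀ v ∈ S, pt n v = c :=
    fun I h1 h2 c hc => by
      refine ⟨Finset.univ.filter fun v => pt n v = c ∧ ix n v ∈ I, fun u hu v hv _ h => ?_, ?_,
        fun v hv => (Finset.mem_filter.1 hv).2.1⟩
      · simp only [Finset.coe_filter, Finset.mem_univ, true_and, Set.mem_ofPred_eq] at hu hv
        rcases (hG u v).1 h with h | h | h
        exacts [h (hu.1.trans hv.1.symm), h2 _ h ⟨hu.2, hv.2⟩, h2 _ h ⟨hv.2, hu.2⟩]
      · refine Finset.card_bij (fun v _ => ix n v) (fun v hv => (Finset.mem_filter.1 hv).2.2)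
          (fun u hu v hv => ?_) fun x hx => ?_
        · have := (Finset.mem_filter.1 hu).2.1
          have := (Finset.mem_filter.1 hv).2.1
          rw [Fin.ext_iff]
          unfold pt ix at *
          split_ifs at * <;> omega
        · have := h1 x hx
          have e : ix n (if c = 0 then x else n + x) = x := by unfold ix; split_ifs <;> omega
          refine ⟨⟨if c = 0 then x else n + x, by split_ifs <;> omega⟩, ?_, e⟩
          simp only [Finset.mem_filter, Finset.mem_univ, true_and, e, hx, and_true]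
          unfold pt; split_ifs <;> omega
  have proj : ∀ S : Finset (Fin (2 * n + k)), G.IsIndepSet S → ∀ u ∈ S, pt n u ≤ 1 →
      ∃ I : Finset ℕ, (∀ v ∈ I, v < n) ∧ I.card = S.card ∧ ∀ e ∈ E, ¬ (e.1 ∈ I ∧ e.2 ∈ I) :=
    fun S hS u hu h => by
      refine ⟨S.image fun v : Fin _ => ix n v, fun x hx => ?_, Finset.card_image_of_injOn
        fun a ha b hb e => ?_, fun e he ⟨h1, h2⟩ => ?_⟩
      · obtain ⟨v, hv, rfl⟩ := Finset.mem_image.1 hx
        have := (same S hS u hu v hv).1
        unfold pt ix at *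
        split_ifs at * <;> omega
      · have := (same S hS a ha b hb).1
        rw [Fin.ext_iff]
        unfold pt ix at *
        split_ifs at * <;> omega
      · obtain ⟨a, ha, e1⟩ := Finset.mem_image.1 h1
        obtain ⟨b, hb, e2⟩ := Finset.mem_image.1 h2
        exact (same S hS a ha b hb).2 (by rw [e1, e2]; exact he)
  have sub : ∀ S : Finset (Fin (2 * n + k)), G.IsIndepSet S → (∀ u ∈ S, ¬ pt n u ≤ 1) → S ⊆ T :=
    fun S _ h v hv => by
      have := h v hv
      simp only [T, Finset.mem_filter, Finset.mem_univ, true_and, v.2, and_true]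
      unfold pt at this; split_ifs at this <;> omega
  constructor
  · rintro ⟨I, h1, h2, h3⟩
    obtain ⟨S, hS⟩ := G.maximumIndepSet_exists
    obtain ⟨I, h1, h2, h3⟩ : ∃ I : Finset ℕ, (∀ v ∈ I, v < n) ∧ S.card ≤ I.card ∧
        ∀ e ∈ E, ¬ (e.1 ∈ I ∧ e.2 ∈ I) := by
      by_cases h : ∃ u ∈ S, pt n u ≤ 1
      · obtain ⟨u, hu, h⟩ := h
        exact (proj S hS.1 u hu h).imp fun _ h => ⟨h.1, h.2.1.ge, h.2.2⟩
      · exact ⟨I, h1, ((Finset.card_le_card (sub S hS.1 fun u hu h' => h ⟨u, hu, h'⟩)).trans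
          T1.le).trans h2, h3⟩
    refine Set.eq_empty_of_forall_notMem fun v hv => ?_
    have : ∀ c ≤ 1, pt n v = c := fun c hc => by
      obtain ⟨S', s1, s2, s3⟩ := lift I h1 h3 c hc
      exact s3 v (hv S' ⟨s1, fun t ht => (hS.2 t ht).trans (s2 ▸ h2)⟩)
    exact absurd ((this 0 zero_le_one).symm.trans (this 1 le_rfl)) zero_ne_one
  · intro h
    by_contra h'
    refine (h ▸ (show (⟨2 * n, by omega⟩ : Fin (2 * n + k)) ∈ core G from fun S hS => ?_) :
      _ ∈ (∅ : Set _))
    have := hS.2 T T2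
    rw [Finset.eq_of_subset_of_card_le (sub S hS.1 fun u hu h => ?_) this]
    · simp [T]
    · obtain ⟨I, h1, h2, h3⟩ := proj S hS.1 u hu h
      exact h' ⟨I, h1, by simp only; omega, h3⟩

theorem result : NPHard CN := by
  have := (hard_IS.red (Val' := fun _ => True) (Y := CN) red (by unfold red pt ix; fun_prop)
    fun ⟨n, E, k⟩ ⟨h1, h2⟩ => ⟨trivial, ?_⟩).npHard
  · simpa using this
  by_cases k0 : k = 0
  · subst k0
    refine iff_of_true ⟨∅, by simp, by simp, by simp⟩ ?_
    rw [red, if_pos rfl]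
    exact Subsingleton.elim (α := Set (Fin 0)) _ _
  · rw [red, if_neg k0]
    refine main n k E (by omega) h1 h2 _ fun u v => ?_
    simp only [gr, SimpleGraph.fromRel_adj, List.mem_filter, List.mem_product, List.mem_range,
      u.2, v.2, true_and, decide_eq_true_eq]
    constructor
    · rintro ⟨-, (h | h) | h | h⟩
      exacts [.inl h, .inr (.inl h), .inl (Ne.symm h), .inr (.inr h)]
    · rintro (h | h | h)
      · exact ⟨fun e => h (e ▸ rfl), .inl (.inl h)⟩
      · exact ⟨fun e => by simpa [e] using (h2 _ h).1, .inl (.inr h)⟩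
      · exact ⟨fun e => by simpa [e] using (h2 _ h).1, .inr (.inr h)⟩

end Pool.Agent.Results.MP_54ee58_lc.Q1
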